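import Pool.Agent.H34.MI.C

/-!
# General weights of the jumps: definitions
-/

namespace Pool.Agent.H34.EX

open Pool.Agent.H34.MI

theorem ind_int_inj : Function.Injective fun p : Finset ℕ × ℕ => ((ind p.1, (p.2 : ℤ)) : YY) := by
  rintro ⟨s, n⟩ ⟨t, m⟩ h
  simp only [Prod.mk.injEq, Nat.cast_inj] at h
  rw [ind_inj h.1, h.2]

/-- the box `{(ζ, n) : ζ supported in [0, k), 0 ≤ n < 2^k}`. -/
noncomputable def bx (k : ℕ) : Finset YY :=
  ((Finset.range k).powerset ×ˢ Finset.range (2 ^ k)).map ⟨_, ind_int_inj⟩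

/-- the modulus of the gradient in the direction of the jumps of length `2 ^ i`. -/
noncomputable def gd (f : YY → ℝ) (i : ℕ) (z : YY) : ℝ := |f (sh (2 ^ i) z) - f z|

/-- the partial sums of `4 ^ i * W i`. -/
noncomputable def MM (W : ℕ → ℝ) (k : ℕ) : ℝ := ∑ i ∈ Finset.range (k + 1), 4 ^ i * W i

/-- the rings: `bx 1`, and `bx (r + 2)` minus `bx (r + 1)`. -/
noncomputable def ring : ℕ → Finset YY
  | 0 => bx 1
  | r + 1 => by
      classical
      exact bx (r + 2) \ bx (r + 1)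

/-- the weights of the chain, for general weights of the jumps. -/
noncomputable def c2 (W : ℕ → ℝ) : ℕ → ℝ
  | 0 => 1 / 8
  | 1 => 1 / 4
  | k + 2 => W k

/-- the conditions on the weights `W k` of the jumps of length `2 ^ k`. -/
structure Wt (W : ℕ → ℝ) : Prop where
  pos : ∀ k, 0 < W k
  total : HasSum W (1 / 2)
  lower : ∃ c : ℝ, 0 < c ∧ ∀ k, c ≤ 4 ^ k * W k
  conv : Summable fun k => (MM W k)⁻¹

end Pool.Agent.H34.EX
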