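import Pool.Agent.H34.EX.E1a
import Pool.Agent.H34.EX.Defs

/-!
E1b: boxes. `SS` is the sum over the box (`Finset.sum_map`, `Finset.sum_product`); `bx` is monotone (`range_mono`, `2^k ≤ 2^l`); `card = 2^k * 2^k = 4^k`. `mem_bx`: membership. `sum_ring`: `bx (k + 1)` is the disjoint union of `ring 0, ..., ring k` (induction); `ring_card ≤ 4^(r+1)`.
`ring_cs`: Cauchy-Schwarz on every ring: `∑_{ring r} D ≤ sqrt (card) * sqrt (∑ D^2) ≤ 2^(r+1) * sqrt (∑_{ring r} D^2)`.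
-/

namespace Pool.Agent.H34.EX

open Pool.Agent.H34.MI

theorem sum_ring (k : ℕ) (D : YY → ℝ) :
    ∑ z ∈ bx (k + 1), D z = ∑ r ∈ Finset.range (k + 1), ∑ z ∈ ring r, D z := by
  classical
  induction k with
  | zero => simp [ring]
  | succ k ih =>
    rw [Finset.sum_range_succ, ← ih]
    have h1 : ∑ z ∈ ring (k + 1), D z = ∑ z ∈ bx (k + 2) \ bx (k + 1), D z := by
      simp only [ring]
    rw [h1, add_comm (∑ z ∈ bx (k + 1), D z)]
    exact (Finset.sum_sdiff (bx_mono (by omega : k + 1 ≤ k + 2))).symm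

private theorem e1b_card (r : ℕ) : ((ring r).card : ℝ) ≤ 4 ^ (r + 1) := by
  classical
  have h1 : (ring r).card ≤ (bx (r + 1)).card := by
    apply Finset.card_le_card
    cases r with
    | zero => simp [ring]
    | succ r =>
      simp only [ring]
      exact Finset.sdiff_subset
  rw [bx_card] at h1
  exact_mod_cast h1

theorem ring_cs (k : ℕ) {D : YY → ℝ} (hD : ∀ z, 0 ≤ D z) : ∑ z ∈ bx (k + 1), D z ≤
    ∑ r ∈ Finset.range (k + 1), 2 ^ (r + 1) * Real.sqrt (∑ z ∈ ring r, D z ^ 2) := by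
  rw [sum_ring]
  refine Finset.sum_le_sum fun r _ => ?_
  have h1 : (∑ z ∈ ring r, D z) ^ 2 ≤ (ring r).card * ∑ z ∈ ring r, D z ^ 2 :=
    sq_sum_le_card_mul_sum_sq
  have h2 : 0 ≤ ∑ z ∈ ring r, D z ^ 2 := Finset.sum_nonneg fun z _ => sq_nonneg _
  have h3 : (∑ z ∈ ring r, D z) ^ 2 ≤ 4 ^ (r + 1) * ∑ z ∈ ring r, D z ^ 2 :=
    h1.trans (mul_le_mul_of_nonneg_right (e1b_card r) h2)
  have h4 : 0 ≤ ∑ z ∈ ring r, D z := Finset.sum_nonneg fun z _ => hD z
  apply le_of_sq_le_sq _ (by positivity)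
  rw [mul_pow, Real.sq_sqrt h2]
  refine h3.trans (le_of_eq ?_)
  congr 1
  rw [← pow_mul, mul_comm, pow_mul]
  norm_num

end Pool.Agent.H34.EX
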