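import Pool.Agent.H34.EX.Defs

/-!
E1a: boxes.
-/

namespace Pool.Agent.H34.EX

open Pool.Agent.H34.MI

theorem mem_bx {k : ℕ} {y : YY} : y ∈ bx k ↔
    ∃ s : Finset ℕ, s ⊆ Finset.range k ∧ ∃ n : ℕ, n < 2 ^ k ∧ y = (ind s, (n : ℤ)) := by
  unfold bx
  rw [Finset.mem_map]
  constructor
  · rintro ⟨⟨s, n⟩, h, rfl⟩
    rw [Finset.mem_product, Finset.mem_powerset, Finset.mem_range] at h
    exact ⟨s, h.1, n, h.2, rfl⟩
  · rintro ⟨s, hs, n, hn, rfl⟩
    exact ⟨(s, n), by rw [Finset.mem_product, Finset.mem_powerset, Finset.mem_range]; exact ⟨hs, hn⟩,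
      rfl⟩

theorem SS_eq (k : ℕ) (f : YY → ℝ) : SS k f = ∑ y ∈ bx k, f y := by
  unfold SS bx
  rw [Finset.sum_map, Finset.sum_product]
  rfl

theorem bx_mono : Monotone bx := by
  intro k l hkl y hy
  rw [mem_bx] at hy ⊢
  obtain ⟨s, hs, n, hn, rfl⟩ := hy
  exact ⟨s, hs.trans (Finset.range_mono hkl), n,
    hn.trans_le (Nat.pow_le_pow_right (by norm_num) hkl), rfl⟩

theorem bx_card (k : ℕ) : (bx k).card = 4 ^ k := by
  unfold bx
  rw [Finset.card_map, Finset.card_product, Finset.card_powerset, Finset.card_range,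
    Finset.card_range, ← mul_pow]
  norm_num

end Pool.Agent.H34.EX
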