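import Pool.Agent.H34.EX.E1a
import Pool.Agent.H34.EX.Defs

/-!
E2b: the jump `2^k` as `2^(k-i)` jumps `2^i`. For `y = (ind s, n)` of `bx k`: `f (sh (2^k) y) - f y = ∑_{l < 2^(k-i)} (f (sh (2^i) (ind s, n + l 2^i)) - f (ind s, n + l 2^i))` (`Finset.sum_range_sub`), and for fixed `l` the map `y ↦ (ind s, n + l 2^i)` is an injection of `bx k` into `bx (k + 1)`
(`n + l 2^i < 2^k + 2^k`). `shift2`: for `y = (ind s, n)` of `bx k`: `tg (sh (2^k) y) = (ind (insert k s), n + 2^k)` (`ind_insert`, as in `SS_succ` of MI/C), `(sh (2^k)).symm` of it is `(ind (insert k s), n)`: the same with the injection `y ↦ (ind (insert k s), n + l 2^i)` into `bx (k + 1)`.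
-/

namespace Pool.Agent.H34.EX

open Pool.Agent.H34.MI

private theorem e2b_le (g : YY → ℝ) (hg : ∀ z, 0 ≤ g z) {i k : ℕ} (hik : i ≤ k) {l : ℕ}
    (hl : l < 2 ^ (k - i)) :
    ∑ s ∈ (Finset.range k).powerset, ∑ n ∈ Finset.range (2 ^ k),
      g (ind (insert k s), (n : ℤ) + l * 2 ^ i) ≤ ∑ z ∈ bx (k + 1), g z := by
  classical
  rw [← Finset.sum_product']
  have hpow : 2 ^ (k - i) * 2 ^ i = 2 ^ k := by
    rw [← pow_add]
    congr 1
    omega
  have hinj : Set.InjOn (fun p : Finset ℕ × ℕ =>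
      ((ind (insert k p.1), (p.2 : ℤ) + l * 2 ^ i) : YY))
      (((Finset.range k).powerset ×ˢ Finset.range (2 ^ k) : Finset (Finset ℕ × ℕ)) :
        Set (Finset ℕ × ℕ)) := by
    rintro ⟨s, n⟩ hs ⟨t, m⟩ ht h
    have hs1 := (Finset.mem_product.1 (Finset.mem_coe.1 hs)).1
    have ht1 := (Finset.mem_product.1 (Finset.mem_coe.1 ht)).1
    have hks : k ∉ s := fun h => Finset.notMem_range_self (Finset.mem_powerset.1 hs1 h)
    have hkt : k ∉ t := fun h => Finset.notMem_range_self (Finset.mem_powerset.1 ht1 h)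
    have h1 : ind (insert k s) = ind (insert k t) := congrArg Prod.fst h
    have h2 : (n : ℤ) + l * 2 ^ i = (m : ℤ) + l * 2 ^ i := congrArg Prod.snd h
    have h3 : insert k s = insert k t := ind_inj h1
    have h4 : s = t := by
      rw [← Finset.erase_insert hks, ← Finset.erase_insert hkt, h3]
    have h5 : n = m := by
      have : (n : ℤ) = m := by linarith
      exact_mod_cast this
    rw [h4, h5]
  have e : ∑ x ∈ (Finset.range k).powerset ×ˢ Finset.range (2 ^ k),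
      g (ind (insert k x.1), (x.2 : ℤ) + l * 2 ^ i) =
      ∑ z ∈ ((Finset.range k).powerset ×ˢ Finset.range (2 ^ k)).image (fun p : Finset ℕ × ℕ =>
      ((ind (insert k p.1), (p.2 : ℤ) + l * 2 ^ i) : YY)), g z := by
    rw [Finset.sum_image hinj]
  rw [e]
  refine Finset.sum_le_sum_of_subset_of_nonneg ?_ (fun z _ _ => hg z)
  intro z hz
  obtain ⟨⟨s, n⟩, hp, rfl⟩ := Finset.mem_image.1 hz
  obtain ⟨hs, hn⟩ := Finset.mem_product.1 hp
  rw [mem_bx]
  refine ⟨insert k s, ?_, n + l * 2 ^ i, ?_, ?_⟩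
  · intro x hx
    rw [Finset.mem_range]
    rcases Finset.mem_insert.1 hx with rfl | hx
    · omega
    · have := Finset.mem_range.1 (Finset.mem_powerset.1 hs hx)
      omega
  · have hn' := Finset.mem_range.1 hn
    have h1 : l * 2 ^ i < 2 ^ k := by
      rw [← hpow]
      exact Nat.mul_lt_mul_of_pos_right hl (by positivity)
    rw [pow_succ]
    dsimp only at hn' ⊢
    omega
  · dsimp only
    push_cast
    rfl

private theorem e2b_tele (f : YY → ℝ) (x : ℕ → ZMod 2) (m : ℤ) {i k : ℕ} (hik : i ≤ k) :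
    |f (x, m) - f (x, m + 2 ^ k)| ≤
      ∑ l ∈ Finset.range (2 ^ (k - i)), gd f i (x, m + l * 2 ^ i) := by
  have hpow : (2 : ℤ) ^ (k - i) * 2 ^ i = 2 ^ k := by
    rw [← pow_add]
    congr 1
    omega
  have h1 := Finset.sum_range_sub (fun l : ℕ => f (x, m + (l : ℤ) * 2 ^ i)) (2 ^ (k - i))
  have h2 : f (x, m + 2 ^ k) - f (x, m) = ∑ l ∈ Finset.range (2 ^ (k - i)),
      (f (x, m + ((l + 1 : ℕ) : ℤ) * 2 ^ i) - f (x, m + (l : ℤ) * 2 ^ i)) := by
    rw [h1]
    have e1 : (((2 ^ (k - i) : ℕ) : ℤ)) * 2 ^ i = 2 ^ k := by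
      push_cast
      exact hpow
    rw [e1]
    simp
  rw [abs_sub_comm, h2]
  refine (Finset.abs_sum_le_sum_abs _ _).trans (le_of_eq ?_)
  refine Finset.sum_congr rfl fun l _ => ?_
  unfold gd
  rw [sh_apply]
  dsimp only
  have e2 : m + ((l + 1 : ℕ) : ℤ) * 2 ^ i = m + (l : ℤ) * 2 ^ i + 2 ^ i := by
    push_cast
    ring
  rw [e2]

theorem shift2 (f : YY → ℝ) {i k : ℕ} (hik : i ≤ k) :
    |SS k (fun y => f ((sh (2 ^ k)).symm (tg (sh (2 ^ k) y)))) -
      SS k (fun y => f (tg (sh (2 ^ k) y)))| ≤ 2 ^ (k - i) * ∑ z ∈ bx (k + 1), gd f i z := by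
  rw [← SS_sub]
  unfold SS
  have hgd : ∀ z, 0 ≤ gd f i z := fun z => abs_nonneg _
  have h1 : ∀ s ∈ (Finset.range k).powerset, ∀ n ∈ Finset.range (2 ^ k),
      |f ((sh (2 ^ k)).symm (tg (sh (2 ^ k) (ind s, (n : ℤ))))) -
        f (tg (sh (2 ^ k) (ind s, (n : ℤ))))| ≤
      ∑ l ∈ Finset.range (2 ^ (k - i)), gd f i (ind (insert k s), (n : ℤ) + l * 2 ^ i) := by
    intro s hs n hn
    have hk : k ∉ s := fun h => Finset.notMem_range_self (Finset.mem_powerset.1 hs h)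
    have hn' : (n : ℤ) < 2 ^ k := by exact_mod_cast Finset.mem_range.1 hn
    have hn0 : (0 : ℤ) ≤ n := Int.natCast_nonneg n
    rw [sh_apply, tg_apply, sh_symm_apply]
    dsimp only
    rw [← ind_insert hk (m := (n : ℤ) + 2 ^ k) (by linarith) (by rw [pow_succ]; linarith),
      add_sub_cancel_right]
    exact e2b_tele f _ _ hik
  have h2 : |∑ s ∈ (Finset.range k).powerset, ∑ n ∈ Finset.range (2 ^ k),
      (f ((sh (2 ^ k)).symm (tg (sh (2 ^ k) (ind s, (n : ℤ))))) -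
        f (tg (sh (2 ^ k) (ind s, (n : ℤ)))))| ≤
      ∑ s ∈ (Finset.range k).powerset, ∑ n ∈ Finset.range (2 ^ k),
        ∑ l ∈ Finset.range (2 ^ (k - i)), gd f i (ind (insert k s), (n : ℤ) + l * 2 ^ i) := by
    refine (Finset.abs_sum_le_sum_abs _ _).trans (Finset.sum_le_sum fun s hs => ?_)
    exact (Finset.abs_sum_le_sum_abs _ _).trans (Finset.sum_le_sum fun n hn => h1 s hs n hn)
  refine h2.trans ?_
  have e3 : ∑ s ∈ (Finset.range k).powerset, ∑ n ∈ Finset.range (2 ^ k),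
        ∑ l ∈ Finset.range (2 ^ (k - i)), gd f i (ind (insert k s), (n : ℤ) + l * 2 ^ i) =
      ∑ l ∈ Finset.range (2 ^ (k - i)), ∑ s ∈ (Finset.range k).powerset,
        ∑ n ∈ Finset.range (2 ^ k), gd f i (ind (insert k s), (n : ℤ) + l * 2 ^ i) := by
    rw [Finset.sum_comm]
    rw [Finset.sum_congr rfl fun n _ => Finset.sum_comm]
    rw [Finset.sum_comm]
    exact Finset.sum_congr rfl fun l _ => Finset.sum_comm
  rw [e3]
  have h4 : ∑ l ∈ Finset.range (2 ^ (k - i)), ∑ s ∈ (Finset.range k).powerset,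
        ∑ n ∈ Finset.range (2 ^ k), gd f i (ind (insert k s), (n : ℤ) + l * 2 ^ i) ≤
      ∑ l ∈ Finset.range (2 ^ (k - i)), ∑ z ∈ bx (k + 1), gd f i z :=
    Finset.sum_le_sum fun l hl => e2b_le (gd f i) hgd hik (Finset.mem_range.1 hl)
  refine h4.trans (le_of_eq ?_)
  rw [Finset.sum_const, Finset.card_range, nsmul_eq_mul]
  push_cast
  rfl

end Pool.Agent.H34.EX
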