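import Pool.Agent.H34.EX.E2a
import Pool.Agent.H34.EX.E2b

/-!
E2: proofs in E2a, E2b.
-/
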