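import Pool.Agent.H34.EX.E1a
import Pool.Agent.H34.EX.Defs

/-!
E2a: the jump `2^k` as `2^(k-i)` jumps `2^i`. For `y = (ind s, n)` of `bx k`: `f (sh (2^k) y) - f y = ∑_{l < 2^(k-i)} (f (sh (2^i) (ind s, n + l 2^i)) - f (ind s, n + l 2^i))` (`Finset.sum_range_sub`), and for fixed `l` the map `y ↦ (ind s, n + l 2^i)` is an injection of `bx k` into `bx (k + 1)`
(`n + l 2^i < 2^k + 2^k`). `shift2`: for `y = (ind s, n)` of `bx k`: `tg (sh (2^k) y) = (ind (insert k s), n + 2^k)` (`ind_insert`, as in `SS_succ` of MI/C), `(sh (2^k)).symm` of it is `(ind (insert k s), n)`: the same with the injection `y ↦ (ind (insert k s), n + l 2^i)` into `bx (k + 1)`.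
-/

namespace Pool.Agent.H34.EX

open Pool.Agent.H34.MI

private theorem e2a_box {g : YY → ℝ} (hg : ∀ z, 0 ≤ g z) {k m : ℕ} (hm : m ≤ 2 ^ k) :
    SS k (fun y => g (sh (m : ℤ) y)) ≤ ∑ z ∈ bx (k + 1), g z := by
  rw [← SS_eq]
  unfold SS
  have h0 : ∑ s ∈ (Finset.range k).powerset, ∑ n ∈ Finset.range (2 ^ (k + 1)), g (ind s, (n : ℤ)) ≤
      ∑ s ∈ (Finset.range (k + 1)).powerset, ∑ n ∈ Finset.range (2 ^ (k + 1)),
        g (ind s, (n : ℤ)) :=
    Finset.sum_le_sum_of_subset_of_nonneg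
      (Finset.powerset_mono.2 (Finset.range_mono (Nat.le_succ k)))
      fun s _ _ => Finset.sum_nonneg fun n _ => hg _
  refine le_trans (Finset.sum_le_sum fun s _ => ?_) h0
  have h1 : ∑ n ∈ Finset.range (2 ^ k), g (sh (m : ℤ) (ind s, (n : ℤ))) =
      ∑ n ∈ Finset.Ico m (2 ^ k + m), g (ind s, (n : ℤ)) := by
    rw [Finset.sum_Ico_eq_sum_range, Nat.add_sub_cancel]
    refine Finset.sum_congr rfl fun n _ => ?_
    rw [sh_apply]
    dsimp only
    congr 2
    push_cast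
    ring
  rw [h1]
  refine Finset.sum_le_sum_of_subset_of_nonneg (fun n hn => ?_) fun _ _ _ => hg _
  rw [Finset.mem_Ico] at hn
  rw [Finset.mem_range, pow_succ]
  omega

theorem shift1 (f : YY → ℝ) {i k : ℕ} (hik : i ≤ k) :
    |SS k (fun y => f (sh (2 ^ k) y)) - SS k f| ≤ 2 ^ (k - i) * ∑ z ∈ bx (k + 1), gd f i z := by
  have hgd : ∀ z, 0 ≤ gd f i z := fun z => abs_nonneg _
  have htel : ∀ y : YY, |f (sh (2 ^ k) y) - f y| ≤
      ∑ l ∈ Finset.range (2 ^ (k - i)), gd f i (sh ((l * 2 ^ i : ℕ) : ℤ) y) := by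
    intro y
    have h1 := Finset.sum_range_sub (fun l : ℕ => f (sh ((l * 2 ^ i : ℕ) : ℤ) y)) (2 ^ (k - i))
    have h2 : ((2 ^ (k - i) * 2 ^ i : ℕ) : ℤ) = 2 ^ k := by
      rw [← pow_add, Nat.sub_add_cancel hik]
      push_cast
      rfl
    have h3 : f (sh ((0 * 2 ^ i : ℕ) : ℤ) y) = f y := by
      rw [zero_mul, Nat.cast_zero, sh_apply, add_zero]
    rw [h2, h3] at h1
    rw [← h1]
    refine (Finset.abs_sum_le_sum_abs _ _).trans (le_of_eq (Finset.sum_congr rfl fun l _ => ?_))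
    have h4 : sh (((l + 1) * 2 ^ i : ℕ) : ℤ) y = sh (2 ^ i) (sh ((l * 2 ^ i : ℕ) : ℤ) y) := by
      simp only [sh_apply]
      push_cast
      congr 1
      ring
    unfold gd
    rw [h4]
  calc |SS k (fun y => f (sh (2 ^ k) y)) - SS k f| = |SS k (fun y => f (sh (2 ^ k) y) - f y)| := by
        rw [SS_sub]
    _ ≤ SS k (fun y => |f (sh (2 ^ k) y) - f y|) := by
        unfold SS
        exact (Finset.abs_sum_le_sum_abs _ _).trans
          (Finset.sum_le_sum fun s _ => Finset.abs_sum_le_sum_abs _ _)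
    _ ≤ SS k (fun y => ∑ l ∈ Finset.range (2 ^ (k - i)), gd f i (sh ((l * 2 ^ i : ℕ) : ℤ) y)) := by
        unfold SS
        exact Finset.sum_le_sum fun s _ => Finset.sum_le_sum fun n _ => htel _
    _ = ∑ l ∈ Finset.range (2 ^ (k - i)), SS k (fun y => gd f i (sh ((l * 2 ^ i : ℕ) : ℤ) y)) := by
        unfold SS
        rw [Finset.sum_congr rfl fun s _ => Finset.sum_comm, Finset.sum_comm]
    _ ≤ ∑ l ∈ Finset.range (2 ^ (k - i)), ∑ z ∈ bx (k + 1), gd f i z := by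
        refine Finset.sum_le_sum fun l hl => e2a_box hgd ?_
        have h5 : l * 2 ^ i ≤ 2 ^ (k - i) * 2 ^ i :=
          Nat.mul_le_mul_right _ (Finset.mem_range.1 hl).le
        rwa [← pow_add, Nat.sub_add_cancel hik] at h5
    _ = 2 ^ (k - i) * ∑ z ∈ bx (k + 1), gd f i z := by
        rw [Finset.sum_const, Finset.card_range, nsmul_eq_mul]
        push_cast
        rfl

end Pool.Agent.H34.EX
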