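import Pool.Agent.H34.EX.E2

/-!
E3: one step of the averages. `SS_succ`: `SS (k+1) f - 4 SS k f = 3 d1 + 2 d2 + d3` with `d1 = SS k (f ∘ τ) - SS k f`, `d2 = SS k (f ∘ tg ∘ τ) - SS k (f ∘ τ)`, `d3 = SS k (f ∘ τ⁻¹ ∘ tg ∘ τ) - SS k (f ∘ tg ∘ τ)`, `τ = sh (2^k)`. `|d2| ≤ 2^k * x` as in `SS_step` (`SS_abs`, `nsq_comp`). For `d1, d3`: with
`a i = 4^i W i`, `∑_{i ≤ k} a i = MM W k`: `|d| = ∑_i (a i / MM W k) |d| ≤ ∑_i (a i / MM W k) 2^(k-i) ∑_{bx (k+1)} gd f i` (`shift1`, `shift2`). Divide by `4^(k+1)`: `4 * 2^(k-i) / 4^(k+1) = 1 / 2^(k+i)`.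
-/

namespace Pool.Agent.H34.EX

open Pool.Agent.H34.MI

private theorem e3_MM_pos {W : ℕ → ℝ} (hW : ∀ k, 0 < W k) (k : ℕ) : 0 < MM W k := by
  unfold MM
  refine Finset.sum_pos (fun i _ => mul_pos (by positivity) (hW i)) ?_
  exact ⟨0, Finset.mem_range.2 (Nat.succ_pos k)⟩

private theorem e3_avg {W : ℕ → ℝ} (hW : ∀ k, 0 < W k) (k : ℕ) {d : ℝ} {g : ℕ → ℝ}
    (h : ∀ i ≤ k, d ≤ 2 ^ (k - i) * g i) :
    d ≤ ∑ i ∈ Finset.range (k + 1), 4 ^ i * W i / MM W k * (2 ^ (k - i) * g i) := by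
  have hM := e3_MM_pos hW k
  have h1 : d = ∑ i ∈ Finset.range (k + 1), 4 ^ i * W i / MM W k * d := by
    rw [← Finset.sum_mul, ← Finset.sum_div]
    change d = MM W k / MM W k * d
    rw [div_self hM.ne', one_mul]
  calc d = ∑ i ∈ Finset.range (k + 1), 4 ^ i * W i / MM W k * d := h1
    _ ≤ _ := by
      refine Finset.sum_le_sum fun i hi => ?_
      refine mul_le_mul_of_nonneg_left (h i (Nat.lt_succ_iff.1 (Finset.mem_range.1 hi))) ?_
      exact (div_pos (mul_pos (by positivity) (hW i)) hM).le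

theorem step2 {W : ℕ → ℝ} (hW : ∀ k, 0 < W k) {f : YY → ℝ} (hf : (Function.support f).Finite)
    {x : ℝ} (hx : 0 ≤ x) (h2 : MI.gr tg f ≤ x ^ 2) (k : ℕ) :
    |SS (k + 1) f / 4 ^ (k + 1) - SS k f / 4 ^ k| ≤
      ∑ i ∈ Finset.range (k + 1), 4 ^ i * W i / MM W k * (1 / 2 ^ (k + i)) *
        ∑ z ∈ bx (k + 1), gd f i z + (1 / 2) ^ k * x := by
  set τ := sh (2 ^ k) with hτ
  set G : ℝ := ∑ i ∈ Finset.range (k + 1), 4 ^ i * W i / MM W k *
    (2 ^ (k - i) * ∑ z ∈ bx (k + 1), gd f i z) with hG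
  have d1 : |SS k (fun y => f (τ y)) - SS k f| ≤ G :=
    e3_avg hW k (g := fun i => ∑ z ∈ bx (k + 1), gd f i z) fun i hi => shift1 f hi
  have d2 : |SS k (fun y => f (tg (τ y))) - SS k (fun y => f (τ y))| ≤ 2 ^ k * x := by
    rw [← SS_sub]
    refine SS_abs k (g := fun y => (fun y => f (tg y) - f y) (τ y))
      (support_comp (support_grad hf tg) τ) hx ?_
    exact (nsq_comp τ (fun y => f (tg y) - f y)).trans_le h2
  have d3 : |SS k (fun y => f (τ.symm (tg (τ y)))) - SS k (fun y => f (tg (τ y)))| ≤ G :=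
    e3_avg hW k (g := fun i => ∑ z ∈ bx (k + 1), gd f i z) fun i hi => shift2 f hi
  have h3 : |SS (k + 1) f - 4 * SS k f| ≤ 4 * G + 2 * (2 ^ k * x) := by
    rw [SS_succ]
    rw [abs_le] at d1 d2 d3 ⊢
    constructor <;> linarith [d1.1, d1.2, d2.1, d2.2, d3.1, d3.2]
  have h4 : SS (k + 1) f / 4 ^ (k + 1) - SS k f / 4 ^ k =
      (SS (k + 1) f - 4 * SS k f) / 4 ^ (k + 1) := by
    rw [pow_succ]
    field_simp
  rw [h4, abs_div, abs_of_pos (by positivity : (0 : ℝ) < 4 ^ (k + 1))]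
  refine (div_le_div_of_nonneg_right h3 (by positivity)).trans ?_
  rw [add_div]
  refine add_le_add ?_ ?_
  · rw [hG, Finset.mul_sum, Finset.sum_div]
    refine le_of_eq (Finset.sum_congr rfl fun i hi => ?_)
    have hik : i ≤ k := Nat.lt_succ_iff.1 (Finset.mem_range.1 hi)
    have h5 : (4 : ℝ) ^ (k + 1) = 4 * (2 ^ (k - i) * 2 ^ (k + i)) := by
      rw [pow_succ, ← pow_add, show k - i + (k + i) = 2 * k by omega, pow_mul]
      norm_num
      ring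
    rw [h5]
    have h6 : (2 : ℝ) ^ (k - i) ≠ 0 := by positivity
    have h7 : (2 : ℝ) ^ (k + i) ≠ 0 := by positivity
    have hM := (e3_MM_pos hW k).ne'
    field_simp
  · have h8 : (4 : ℝ) ^ (k + 1) = 4 * (2 ^ k * 2 ^ k) := by
      rw [pow_succ, ← mul_pow]
      norm_num
      ring
    have h9 : 2 * (2 ^ k * x) / 4 ^ (k + 1) = (1 / 2) ^ k * x / 2 := by
      rw [h8, one_div, inv_pow]
      field_simp
      ring
    rw [h9]
    have : 0 ≤ (1 / 2 : ℝ) ^ k * x := by positivity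
    linarith

end Pool.Agent.H34.EX
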