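import Mathlib

/-!
E4: Cauchy-Schwarz, only real numbers. `M k = ∑_{i ≤ k} a i > 0`, increasing. With `e i r = a i / 4^i * (g i r)^2`: `a i / 2^i * g i r = sqrt (a i) * sqrt (e i r)`, so `∑_{i ≤ k} a i / M k / 2^i * g i r ≤ sqrt (M k) sqrt (∑_i e i r) / M k = sqrt (E r) / sqrt (M k)`, `E r = ∑_{i < K} e i r`
(`Real.inner_le_nnorm_mul_nnorm`, or `Finset.sum_mul_sq_le_sq_mul_sq`, `Real.sum_sqrt_mul_sqrt_le`). So the left side is at most `∑_k ∑_{r ≤ k} 2^(r+1-k) sqrt (E r) / sqrt (M k) ≤ ∑_r sqrt (E r) / sqrt (M r) ∑_{k ≥ r} 2^(r+1-k) ≤ 4 ∑_r sqrt (E r) / sqrt (M r) ≤ 4 sqrt (∑ E r) sqrt (∑ 1 / M r)`.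
-/

namespace Pool.Agent.H34.EX

private theorem e4_geo (x : ℕ → ℝ) (K : ℕ) :
    (∑ k ∈ Finset.range K, ∑ r ∈ Finset.range (k + 1), (2 : ℝ) ^ (r + 1) / 2 ^ k * x r) +
      2 * ∑ r ∈ Finset.range K, (2 : ℝ) ^ (r + 1) / 2 ^ K * x r =
      4 * ∑ r ∈ Finset.range K, x r := by
  induction K with
  | zero => simp
  | succ K ih =>
    have h1 : ∑ r ∈ Finset.range (K + 1), (2 : ℝ) ^ (r + 1) / 2 ^ K * x r =
        (∑ r ∈ Finset.range K, (2 : ℝ) ^ (r + 1) / 2 ^ K * x r) + 2 * x K := by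
      rw [Finset.sum_range_succ]
      congr 1
      rw [pow_succ]
      field_simp
    have h2 : 2 * ∑ r ∈ Finset.range (K + 1), (2 : ℝ) ^ (r + 1) / 2 ^ (K + 1) * x r =
        ∑ r ∈ Finset.range (K + 1), (2 : ℝ) ^ (r + 1) / 2 ^ K * x r := by
      rw [Finset.mul_sum]
      refine Finset.sum_congr rfl fun r _ => ?_
      rw [pow_succ 2 K]
      field_simp
    rw [Finset.sum_range_succ, h2, h1, Finset.sum_range_succ (fun r => x r)]
    linarith

theorem cs_total {a : ℕ → ℝ} (ha : ∀ i, 0 < a i) (K : ℕ) {g : ℕ → ℕ → ℝ} (hg : ∀ i r, 0 ≤ g i r) :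
    ∑ k ∈ Finset.range K, ∑ i ∈ Finset.range (k + 1),
        a i / (∑ i ∈ Finset.range (k + 1), a i) * (1 / 2 ^ (k + i)) *
          ∑ r ∈ Finset.range (k + 1), 2 ^ (r + 1) * g i r ≤
      4 * Real.sqrt (∑ i ∈ Finset.range K, ∑ r ∈ Finset.range K, a i / 4 ^ i * g i r ^ 2) *
        Real.sqrt (∑ k ∈ Finset.range K, (∑ i ∈ Finset.range (k + 1), a i)⁻¹) := by
  set M : ℕ → ℝ := fun k => ∑ i ∈ Finset.range (k + 1), a i with hM
  set E : ℕ → ℝ := fun r => ∑ i ∈ Finset.range K, a i / 4 ^ i * g i r ^ 2 with hE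
  have hMpos : ∀ k, 0 < M k := fun k =>
    Finset.sum_pos (fun i _ => ha i) ⟨0, Finset.mem_range.2 (Nat.succ_pos k)⟩
  have hMmono : ∀ r k, r ≤ k → M r ≤ M k := fun r k hrk =>
    Finset.sum_le_sum_of_subset_of_nonneg (Finset.range_mono (by omega)) fun i _ _ => (ha i).le
  have hEnn : ∀ i r, 0 ≤ a i / 4 ^ i * g i r ^ 2 := fun i r => by
    have := (ha i).le
    positivity
  have hE0 : ∀ r, 0 ≤ E r := fun r => Finset.sum_nonneg fun i _ => hEnn i r
  set x : ℕ → ℝ := fun r => Real.sqrt (E r) * Real.sqrt ((M r)⁻¹) with hx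
  have hx0 : ∀ r, 0 ≤ x r := fun r => mul_nonneg (Real.sqrt_nonneg _) (Real.sqrt_nonneg _)
  -- the inner sums
  have hin : ∀ k ∈ Finset.range K, ∀ r ∈ Finset.range (k + 1),
      (∑ i ∈ Finset.range (k + 1), a i / 2 ^ i * g i r) / M k ≤ x r := by
    intro k hk r hr
    rw [Finset.mem_range] at hk hr
    have h1 : ∑ i ∈ Finset.range (k + 1), a i / 2 ^ i * g i r ≤
        Real.sqrt (M k) * Real.sqrt (E r) := by
      have h2 : ∀ i, a i / 2 ^ i * g i r =
          Real.sqrt (a i) * Real.sqrt (a i / 4 ^ i * g i r ^ 2) := by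
        intro i
        rw [← Real.sqrt_mul (ha i).le]
        have e : a i * (a i / 4 ^ i * g i r ^ 2) = (a i / 2 ^ i * g i r) ^ 2 := by
          have h4 : (4 : ℝ) ^ i = 2 ^ i * 2 ^ i := by
            rw [← mul_pow]
            norm_num
          rw [h4]
          field_simp
        rw [e, Real.sqrt_sq]
        have := (ha i).le
        have := hg i r
        positivity
      rw [Finset.sum_congr rfl fun i _ => h2 i]
      refine le_trans (Real.sum_sqrt_mul_sqrt_le _ (fun i => (ha i).le) fun i => hEnn i r) ?_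
      refine mul_le_mul_of_nonneg_left (Real.sqrt_le_sqrt ?_) (Real.sqrt_nonneg _)
      exact Finset.sum_le_sum_of_subset_of_nonneg (Finset.range_mono (by omega))
        fun i _ _ => hEnn i r
    have h3 : Real.sqrt (M k) / M k ≤ Real.sqrt ((M r)⁻¹) := by
      rw [Real.sqrt_div_self', one_div, Real.sqrt_inv]
      exact inv_anti₀ (Real.sqrt_pos.2 (hMpos r)) (Real.sqrt_le_sqrt (hMmono r k (by omega)))
    calc (∑ i ∈ Finset.range (k + 1), a i / 2 ^ i * g i r) / M k ≤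
          (Real.sqrt (M k) * Real.sqrt (E r)) / M k :=
          div_le_div_of_nonneg_right h1 (hMpos k).le
      _ = Real.sqrt (E r) * (Real.sqrt (M k) / M k) := by ring
      _ ≤ Real.sqrt (E r) * Real.sqrt ((M r)⁻¹) :=
          mul_le_mul_of_nonneg_left h3 (Real.sqrt_nonneg _)
  have hrew : ∀ k ∈ Finset.range K, ∑ i ∈ Finset.range (k + 1),
        a i / M k * (1 / 2 ^ (k + i)) * ∑ r ∈ Finset.range (k + 1), 2 ^ (r + 1) * g i r ≤
      ∑ r ∈ Finset.range (k + 1), (2 : ℝ) ^ (r + 1) / 2 ^ k * x r := by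
    intro k hk
    have e : ∑ i ∈ Finset.range (k + 1),
        a i / M k * (1 / 2 ^ (k + i)) * ∑ r ∈ Finset.range (k + 1), 2 ^ (r + 1) * g i r =
        ∑ r ∈ Finset.range (k + 1), (2 : ℝ) ^ (r + 1) / 2 ^ k *
          ((∑ i ∈ Finset.range (k + 1), a i / 2 ^ i * g i r) / M k) := by
      simp only [Finset.mul_sum, Finset.sum_div]
      rw [Finset.sum_comm]
      refine Finset.sum_congr rfl fun r _ => Finset.sum_congr rfl fun i _ => ?_
      rw [pow_add 2 k i]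
      field_simp
    rw [e]
    refine Finset.sum_le_sum fun r hr => ?_
    exact mul_le_mul_of_nonneg_left (hin k hk r hr) (by positivity)
  have h5 : ∑ k ∈ Finset.range K, ∑ r ∈ Finset.range (k + 1), (2 : ℝ) ^ (r + 1) / 2 ^ k * x r ≤
      4 * ∑ r ∈ Finset.range K, x r := by
    have h6 := e4_geo x K
    have h7 : 0 ≤ ∑ r ∈ Finset.range K, (2 : ℝ) ^ (r + 1) / 2 ^ K * x r :=
      Finset.sum_nonneg fun r _ => mul_nonneg (by positivity) (hx0 r)
    linarith
  have h8 : ∑ r ∈ Finset.range K, x r ≤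
      Real.sqrt (∑ r ∈ Finset.range K, E r) * Real.sqrt (∑ r ∈ Finset.range K, (M r)⁻¹) :=
    Real.sum_sqrt_mul_sqrt_le _ hE0 fun r => (inv_pos.2 (hMpos r)).le
  have h9 : ∑ i ∈ Finset.range K, ∑ r ∈ Finset.range K, a i / 4 ^ i * g i r ^ 2 =
      ∑ r ∈ Finset.range K, E r := Finset.sum_comm
  rw [h9]
  refine le_trans (Finset.sum_le_sum hrew) (le_trans h5 ?_)
  rw [mul_assoc]
  exact mul_le_mul_of_nonneg_left h8 (by norm_num)

end Pool.Agent.H34.EX
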