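import Pool.Agent.H34.EX.E5a
import Pool.Agent.H34.EX.E1
import Pool.Agent.H34.EX.E3
import Pool.Agent.H34.EX.E4

/-!
E5b: the capacity (compare `cap` in MI/C). `D = DD (1/8) (c2 W) sg (K + 2) f = (∑_{k ≥ K} W k) nsq f + gr tg f / 16 + gr (sh 1) f / 8 + ∑_{k < K} W k / 2 * gr (sh (2^k)) f` (`energy`; `1 - 1/8 - ∑ c2 = 1/2 - ∑_{k < K} W k ≥ W K ≥ c / 4^K`). `x = sqrt D`; `gr tg f ≤ (4 x)^2`.
Telescoping: `|f (0,0)| ≤ |SS K f / 4^K| + ∑_{k < K} |SS (k+1) f / 4^(k+1) - SS k f / 4^k|`; `SS_sq`: `|SS K f / 4^K|^2 ≤ nsq f / 4^K ≤ D / c`. `step2`, `ring_cs` with `D = gd f i`, `g i r = sqrt (∑_{ring r} (gd f i)^2)`, `cs_total` with `a i = 4^i W i`: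
`∑_{i, r} W i * g i r^2 ≤ ∑_{i < K} W i * gr (sh (2^i)) f ≤ 2 D` (rings are disjoint: `sum_ring`, then `Summable.sum_le_tsum`; `gd^2 = (f (sh z) - f z)^2`). Total: `|f (0,0)| ≤ (4 sqrt 2 sqrt (∑' 1/MM) + 8 + 1 / sqrt c) x`.
-/

namespace Pool.Agent.H34.EX

open Pool.Agent.H34.MI

private theorem e5b_geom (n : ℕ) :
    ∑ k ∈ Finset.range n, (1 / 2 : ℝ) ^ k = 2 - 2 * (1 / 2) ^ n := by
  induction n with
  | zero => simp
  | succ n ih =>
    rw [Finset.sum_range_succ, ih, pow_succ]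
    ring

private theorem e5b_rings (f : YY → ℝ) (hf : (Function.support f).Finite) (i K : ℕ) :
    ∑ r ∈ Finset.range K, ∑ z ∈ ring r, gd f i z ^ 2 ≤ MI.gr (sh (2 ^ i)) f := by
  rcases K with _ | K
  · rw [Finset.range_zero, Finset.sum_empty]
    exact gr_nonneg _ _
  · rw [← sum_ring K (fun z => gd f i z ^ 2)]
    have h1 : ∀ z, gd f i z ^ 2 = (f (sh (2 ^ i) z) - f z) ^ 2 := by
      intro z
      unfold gd
      rw [sq_abs]
    rw [Finset.sum_congr rfl fun z _ => h1 z]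
    exact (summable_sq (support_grad hf (sh (2 ^ i)))).sum_le_tsum _ fun y _ => sq_nonneg _

private theorem e5b_energy {W : ℕ → ℝ} (K : ℕ) {f : YY → ℝ} (hf : (Function.support f).Finite) :
    DD (1 / 8) (c2 W) sg (K + 2) f = (1 / 2 - ∑ k ∈ Finset.range K, W k) * nsq f +
      (MI.gr tg f / 16 + MI.gr (sh 1) f / 8 +
        ∑ k ∈ Finset.range K, W k / 2 * MI.gr (sh (2 ^ k)) f) := by
  have hsum : ∀ g : ℕ → ℝ, ∑ k ∈ Finset.range (K + 2), g k =
      g 0 + g 1 + ∑ k ∈ Finset.range K, g (k + 2) := by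
    intro g
    rw [Finset.sum_range_succ', Finset.sum_range_succ']
    ring
  rw [energy _ _ _ _ hf, hsum, hsum]
  have h1 : ∑ k ∈ Finset.range K, c2 W (k + 2) = ∑ k ∈ Finset.range K, W k := rfl
  rw [h1]
  simp only [c2, sg]
  ring

theorem cap2 {W : ℕ → ℝ} (h : Wt W) : ∃ C : ℝ, 0 ≤ C ∧ ∀ (K : ℕ) (f : YY → ℝ),
    (Function.support f).Finite → f (0, 0) ^ 2 ≤ C * DD (1 / 8) (c2 W) sg (K + 2) f := by
  obtain ⟨c, hc, hlow⟩ := h.lower
  set S : ℝ := ∑' k, (MM W k)⁻¹ with hS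
  set B : ℝ := 4 * Real.sqrt 2 * Real.sqrt S + 8 + 1 / Real.sqrt c with hB
  have hB0 : 0 ≤ B := by positivity
  refine ⟨B ^ 2, sq_nonneg _, fun K f hf => ?_⟩
  have hMpos : ∀ k, 0 < MM W k := by
    intro k
    unfold MM
    exact Finset.sum_pos (fun i _ => mul_pos (by positivity) (h.pos i))
      ⟨0, Finset.mem_range.2 (Nat.succ_pos k)⟩
  set D := DD (1 / 8) (c2 W) sg (K + 2) f with hD
  have hE := e5b_energy (W := W) K hf
  rw [← hD] at hE
  have hn := nsq_nonneg f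
  have hg0 := gr_nonneg tg f
  have hg1 := gr_nonneg (sh 1) f
  have hgk : ∀ k, 0 ≤ W k / 2 * MI.gr (sh (2 ^ k)) f := fun k =>
    mul_nonneg (by have := h.pos k; linarith) (gr_nonneg _ _)
  have hSk : 0 ≤ ∑ k ∈ Finset.range K, W k / 2 * MI.gr (sh (2 ^ k)) f :=
    Finset.sum_nonneg fun k _ => hgk k
  have hr : c / 4 ^ K ≤ 1 / 2 - ∑ k ∈ Finset.range K, W k := by
    have h1 : ∑ k ∈ Finset.range (K + 1), W k ≤ 1 / 2 :=
      sum_le_hasSum _ (fun k _ => (h.pos k).le) h.total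
    rw [Finset.sum_range_succ] at h1
    have h2 : c / 4 ^ K ≤ W K := by
      rw [div_le_iff₀ (by positivity), mul_comm]
      exact hlow K
    linarith
  have hcK : (0 : ℝ) < c / 4 ^ K := by positivity
  have hRn : c / 4 ^ K * nsq f ≤ (1 / 2 - ∑ k ∈ Finset.range K, W k) * nsq f :=
    mul_le_mul_of_nonneg_right hr hn
  have hRn0 : 0 ≤ c / 4 ^ K * nsq f := mul_nonneg hcK.le hn
  have hD0 : 0 ≤ D := by linarith
  set x := Real.sqrt D with hx
  have hx0 : 0 ≤ x := Real.sqrt_nonneg D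
  have hxx : x ^ 2 = D := Real.sq_sqrt hD0
  -- the toggle
  have ht : MI.gr tg f ≤ (4 * x) ^ 2 := by
    rw [mul_pow, hxx]
    linarith
  -- the jumps
  have hj : ∑ i ∈ Finset.range K, W i * MI.gr (sh (2 ^ i)) f ≤ 2 * D := by
    have h1 : ∑ i ∈ Finset.range K, W i * MI.gr (sh (2 ^ i)) f =
        2 * ∑ k ∈ Finset.range K, W k / 2 * MI.gr (sh (2 ^ k)) f := by
      rw [Finset.mul_sum]
      refine Finset.sum_congr rfl fun i _ => ?_
      ring
    rw [h1]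
    linarith
  set g : ℕ → ℕ → ℝ := fun i r => Real.sqrt (∑ z ∈ ring r, gd f i z ^ 2) with hg
  have hg0' : ∀ i r, 0 ≤ g i r := fun i r => Real.sqrt_nonneg _
  have hgg : ∀ i r, g i r ^ 2 = ∑ z ∈ ring r, gd f i z ^ 2 := fun i r =>
    Real.sq_sqrt (Finset.sum_nonneg fun z _ => sq_nonneg _)
  have hcs := cs_total (a := fun i => 4 ^ i * W i)
    (fun i => mul_pos (by positivity) (h.pos i)) K (g := g) hg0'
  have hE1 : ∑ i ∈ Finset.range K, ∑ r ∈ Finset.range K, 4 ^ i * W i / 4 ^ i * g i r ^ 2 ≤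
      2 * D := by
    refine le_trans (Finset.sum_le_sum fun i _ => ?_) hj
    have h1 : ∀ r ∈ Finset.range K, 4 ^ i * W i / 4 ^ i * g i r ^ 2 =
        W i * ∑ z ∈ ring r, gd f i z ^ 2 := by
      intro r _
      rw [hgg, mul_div_assoc, mul_comm ((4 : ℝ) ^ i), div_mul_cancel₀ _ (by positivity)]
    rw [Finset.sum_congr rfl h1, ← Finset.mul_sum]
    exact mul_le_mul_of_nonneg_left (e5b_rings f hf i K) (h.pos i).le
  have hE2 : ∑ k ∈ Finset.range K, (∑ i ∈ Finset.range (k + 1), 4 ^ i * W i)⁻¹ ≤ S :=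
    h.conv.sum_le_tsum (Finset.range K) fun k _ => (inv_pos.2 (hMpos k)).le
  have hstep : ∀ k ∈ Finset.range K, |SS (k + 1) f / 4 ^ (k + 1) - SS k f / 4 ^ k| ≤
      ∑ i ∈ Finset.range (k + 1), 4 ^ i * W i / (∑ i ∈ Finset.range (k + 1), 4 ^ i * W i) *
        (1 / 2 ^ (k + i)) * ∑ r ∈ Finset.range (k + 1), 2 ^ (r + 1) * g i r +
      (1 / 2) ^ k * (4 * x) := by
    intro k _
    refine (step2 h.pos hf (x := 4 * x) (by positivity) ht k).trans ?_
    refine add_le_add (Finset.sum_le_sum fun i _ => ?_) le_rfl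
    refine mul_le_mul_of_nonneg_left (ring_cs k (D := gd f i) fun z => abs_nonneg _) ?_
    have := (hMpos k).le
    have := (h.pos i).le
    positivity
  have htel : ∀ n, |f (0, 0) - SS n f / 4 ^ n| ≤
      ∑ k ∈ Finset.range n, |SS (k + 1) f / 4 ^ (k + 1) - SS k f / 4 ^ k| := by
    intro n
    induction n with
    | zero =>
      rw [SS_zero]
      simp
    | succ n ih =>
      rw [Finset.sum_range_succ]
      have h3 : f (0, 0) - SS (n + 1) f / 4 ^ (n + 1) = (f (0, 0) - SS n f / 4 ^ n) -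
          (SS (n + 1) f / 4 ^ (n + 1) - SS n f / 4 ^ n) := by ring
      rw [h3]
      exact (abs_sub _ _).trans (add_le_add ih le_rfl)
  have hlast : |SS K f / 4 ^ K| ≤ 1 / Real.sqrt c * x := by
    refine abs_le_of_sq_le_sq ?_ (by positivity)
    rw [div_pow, div_le_iff₀ (by positivity), mul_pow, hxx, div_pow, one_pow, Real.sq_sqrt hc.le]
    refine (SS_sq K hf).trans ?_
    have h1 : c / 4 ^ K * nsq f ≤ D := by linarith
    have h3 : (0 : ℝ) < 4 ^ K := by positivity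
    have h4 : nsq f ≤ 4 ^ K * (1 / c * D) := by
      rw [div_mul_eq_mul_div, div_le_iff₀ h3] at h1
      have h5 : nsq f ≤ 1 / c * (D * 4 ^ K) := by
        rw [one_div, ← div_eq_inv_mul, le_div_iff₀ hc, mul_comm]
        exact h1
      linarith
    calc 4 ^ K * nsq f ≤ 4 ^ K * (4 ^ K * (1 / c * D)) := mul_le_mul_of_nonneg_left h4 h3.le
      _ = 1 / c * D * (4 ^ K) ^ 2 := by ring
  have hmain : |f (0, 0) - SS K f / 4 ^ K| ≤ (4 * Real.sqrt 2 * Real.sqrt S + 8) * x := by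
    refine (htel K).trans ((Finset.sum_le_sum hstep).trans ?_)
    rw [Finset.sum_add_distrib, ← Finset.sum_mul, e5b_geom]
    have h1 : 4 * Real.sqrt (∑ i ∈ Finset.range K, ∑ r ∈ Finset.range K,
          4 ^ i * W i / 4 ^ i * g i r ^ 2) *
        Real.sqrt (∑ k ∈ Finset.range K, (∑ i ∈ Finset.range (k + 1), 4 ^ i * W i)⁻¹) ≤
        4 * (Real.sqrt 2 * x) * Real.sqrt S := by
      have e1 : Real.sqrt (∑ i ∈ Finset.range K, ∑ r ∈ Finset.range K,
          4 ^ i * W i / 4 ^ i * g i r ^ 2) ≤ Real.sqrt 2 * x := by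
        rw [hx, ← Real.sqrt_mul (by norm_num : (0 : ℝ) ≤ 2)]
        exact Real.sqrt_le_sqrt hE1
      exact mul_le_mul (mul_le_mul_of_nonneg_left e1 (by norm_num)) (Real.sqrt_le_sqrt hE2)
        (Real.sqrt_nonneg _) (by positivity)
    have h2 : (2 - 2 * (1 / 2 : ℝ) ^ K) * (4 * x) ≤ 8 * x := by
      have h3 : (0 : ℝ) ≤ (1 / 2) ^ K * x := by positivity
      nlinarith
    have h3 := hcs.trans h1
    linarith
  have hf0 : |f (0, 0)| ≤ B * x := by
    have h1 : |f (0, 0)| ≤ |f (0, 0) - SS K f / 4 ^ K| + |SS K f / 4 ^ K| := by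
      have := abs_add_le (f (0, 0) - SS K f / 4 ^ K) (SS K f / 4 ^ K)
      rwa [sub_add_cancel] at this
    rw [hB]
    linarith
  have h9 : f (0, 0) ^ 2 ≤ (B * x) ^ 2 := by
    rw [← sq_abs]
    exact pow_le_pow_left₀ (abs_nonneg _) hf0 2
  rw [mul_pow, hxx] at h9
  exact h9

end Pool.Agent.H34.EX
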