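import Pool.Agent.H34.EX.E1
import Pool.Agent.H34.EX.E3
import Pool.Agent.H34.EX.E4

/-!
E5a: the capacity (compare `cap` in MI/C). `D = DD (1/8) (c2 W) sg (K + 2) f = (∑_{k ≥ K} W k) nsq f + gr tg f / 16 + gr (sh 1) f / 8 + ∑_{k < K} W k / 2 * gr (sh (2^k)) f` (`energy`; `1 - 1/8 - ∑ c2 = 1/2 - ∑_{k < K} W k ≥ W K ≥ c / 4^K`). `x = sqrt D`; `gr tg f ≤ (4 x)^2`.
Telescoping: `|f (0,0)| ≤ |SS K f / 4^K| + ∑_{k < K} |SS (k+1) f / 4^(k+1) - SS k f / 4^k|`; `SS_sq`: `|SS K f / 4^K|^2 ≤ nsq f / 4^K ≤ D / c`. `step2`, `ring_cs` with `D = gd f i`, `g i r = sqrt (∑_{ring r} (gd f i)^2)`, `cs_total` with `a i = 4^i W i`: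
`∑_{i, r} W i * g i r^2 ≤ ∑_{i < K} W i * gr (sh (2^i)) f ≤ 2 D` (rings are disjoint: `sum_ring`, then `Summable.sum_le_tsum`; `gd^2 = (f (sh z) - f z)^2`). Total: `|f (0,0)| ≤ (4 sqrt 2 sqrt (∑' 1/MM) + 8 + 1 / sqrt c) x`.
-/

namespace Pool.Agent.H34.EX

open Pool.Agent.H34.MI

theorem c2_nonneg {W : ℕ → ℝ} (h : Wt W) (k : ℕ) : 0 ≤ c2 W k := by
  rcases k with _ | _ | k
  · norm_num [c2]
  · norm_num [c2]
  · exact (h.pos k).le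

theorem c2_hasSum {W : ℕ → ℝ} (h : Wt W) : HasSum (c2 W) (1 - 1 / 8) := by
  rw [← hasSum_nat_add_iff' 2]
  have h1 : (1 : ℝ) - 1 / 8 - ∑ i ∈ Finset.range 2, c2 W i = 1 / 2 := by
    rw [Finset.sum_range_succ, Finset.sum_range_succ, Finset.sum_range_zero]
    norm_num [c2]
  rw [h1]
  exact h.total

end Pool.Agent.H34.EX
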