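import Pool.Agent.H34.EX.E6a
import Pool.Agent.H34.EX.E5
import Pool.Agent.H34.MI.F

/-!
E6b: copies of `exists_u` (MI/U) and `exists_ww` (MI/F) with `W`, `c2 W`, `C` (from `cap2`) for `WW`, `cc`, `900`.
-/

namespace Pool.Agent.H34.EX

open Pool.Agent.H34.MI

theorem exists_ww2 {W : ℕ → ℝ} (h : Wt W) : ∃ w : XX → ℝ, (∀ x, |w x| ≤ 1) ∧ w x0 ≠ w (bX x0) ∧
    ∀ x, HasSum (fun k => W k / 2 * (w (tX (2 ^ k) x) + w ((tX (2 ^ k)).symm x)))
      (w x - 1 / 8 * (w (aX x) + w (bX x) + w (tX 1 x) + w ((tX 1).symm x))) := by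
  obtain ⟨u, hu1, huo, hu⟩ := exists_u2 h
  refine ⟨ww u, fun x => ?_, ?_, fun x => ?_⟩
  · unfold ww
    rw [abs_mul, sgn_abs, one_mul]
    exact hu1 _
  · unfold ww
    rw [bX_apply]
    have h0 : x0.1 = (0, 0) := rfl
    dsimp only
    rw [h0, sgn_pt, dl_self]
    have h1 : sgn x0.2 = 1 := sgn_zero
    rw [h1]
    intro hh
    linarith
  · have h' := (hu x.1).mul_left (sgn x.2)
    have h5 : sgn x.2 * (7 / 8 * u x.1 + 1 / 4 * (dl (0, 0) x.1 * u x.1) - 1 / 8 * u (tg x.1) -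
        1 / 8 * (u (sh 1 x.1) + u ((sh 1).symm x.1))) =
        ww u x - 1 / 8 * (ww u (aX x) + ww u (bX x) + ww u (tX 1 x) + ww u ((tX 1).symm x)) := by
      have e1 : ww u (aX x) = sgn x.2 * u (tg x.1) := rfl
      have e2 : ww u (bX x) = sgn (x.2 + pt (0, 0) x.1) * u x.1 := rfl
      have e3 : ww u (tX 1 x) = sgn x.2 * u (sh 1 x.1) := rfl
      have e4 : ww u ((tX 1).symm x) = sgn x.2 * u ((sh 1).symm x.1) := rfl
      rw [e1, e2, e3, e4, sgn_pt]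
      unfold ww
      ring
    rw [h5] at h'
    refine h'.congr_fun fun k => ?_
    have e3 : ww u (tX (2 ^ k) x) = sgn x.2 * u (sh (2 ^ k) x.1) := rfl
    have e4 : ww u ((tX (2 ^ k)).symm x) = sgn x.2 * u ((sh (2 ^ k)).symm x.1) := rfl
    rw [e3, e4]
    ring

end Pool.Agent.H34.EX
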