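import Pool.Agent.H34.EX.E6a
import Pool.Agent.H34.EX.E6b

/-!
E6: proofs in E6a, E6b.
-/
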