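import Mathlib

/-!
E7: regularization of a sequence. `β 0 = b 0`, `β (k+1) = min (b (k+1)) (2 * β k)`: `0 < β k ≤ b k`, monotone (`b` monotone, `β k ≤ b k`), `β (k+1) ≤ 2 β k`, `1/β (k+1) ≤ 1/b (k+1) + 1/(2 β k)`, so the partial sums `T n` satisfy `T (n+1) ≤ ∑' 1/b + T n / 2 + ...`, bounded by `2 * ∑' 1/b`
(induction), summable. `k + 1 ≤ C β k` with `C = ∑' 1/β` (all `1/β i ≥ 1/β k` for `i ≤ k`).
-/

namespace Pool.Agent.H34.EX

private noncomputable def e7seq (b : ℕ → ℝ) : ℕ → ℝ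
  | 0 => b 0
  | k + 1 => min (b (k + 1)) (2 * e7seq b k)

theorem regular {b : ℕ → ℝ} (hb : Monotone b) (hb0 : 0 < b 0) (hs : Summable fun j => (b j)⁻¹) :
    ∃ β : ℕ → ℝ, (∀ k, 0 < β k ∧ β k ≤ b k) ∧ Monotone β ∧ (∀ k, β (k + 1) ≤ 2 * β k) ∧
      (Summable fun k => (β k)⁻¹) ∧ ∃ C : ℝ, 0 < C ∧ ∀ k : ℕ, (k : ℝ) + 1 ≤ C * β k := by
  have hbp : ∀ k, 0 < b k := fun k => lt_of_lt_of_le hb0 (hb (Nat.zero_le k))
  set β := e7seq b with hβ
  have h0 : β 0 = b 0 := rfl
  have hS : ∀ k, β (k + 1) = min (b (k + 1)) (2 * β k) := fun k => rfl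
  have hpos : ∀ k, 0 < β k := by
    intro k
    induction k with
    | zero => rw [h0]; exact hb0
    | succ k ih => rw [hS]; exact lt_min (hbp _) (by linarith)
  have hle : ∀ k, β k ≤ b k := by
    intro k
    cases k with
    | zero => exact h0.le
    | succ k => rw [hS]; exact min_le_left _ _
  have hmono : Monotone β := by
    apply monotone_nat_of_le_succ
    intro k
    rw [hS]
    exact le_min ((hle k).trans (hb (Nat.le_succ k))) (by linarith [hpos k])
  have hdbl : ∀ k, β (k + 1) ≤ 2 * β k := fun k => by rw [hS]; exact min_le_right _ _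
  have hinv : ∀ k, (β (k + 1))⁻¹ ≤ (b (k + 1))⁻¹ + (β k)⁻¹ / 2 := by
    intro k
    have h1 : 0 < (b (k + 1))⁻¹ := inv_pos.2 (hbp _)
    have h2 : 0 < (β k)⁻¹ := inv_pos.2 (hpos k)
    rw [hS]
    rcases le_total (b (k + 1)) (2 * β k) with h | h
    · rw [min_eq_left h]; linarith
    · rw [min_eq_right h, mul_inv]; linarith
  set S := ∑' j, (b j)⁻¹ with hSdef
  have hpart : ∀ n, ∑ j ∈ Finset.range n, (b j)⁻¹ ≤ S := fun n =>
    hs.sum_le_tsum _ (fun j _ => (inv_pos.2 (hbp j)).le)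
  have hT : ∀ n, ∑ k ∈ Finset.range n, (β k)⁻¹ ≤ 2 * S := by
    have hS0 : 0 ≤ S := by simpa using hpart 0
    intro n
    induction n with
    | zero => simpa using hS0
    | succ n ih =>
      rw [Finset.sum_range_succ']
      have h1 : ∑ k ∈ Finset.range n, (β (k + 1))⁻¹ ≤
          ∑ k ∈ Finset.range n, ((b (k + 1))⁻¹ + (β k)⁻¹ / 2) :=
        Finset.sum_le_sum fun k _ => hinv k
      rw [Finset.sum_add_distrib, ← Finset.sum_div] at h1
      have h2 := hpart (n + 1)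
      rw [Finset.sum_range_succ'] at h2
      rw [h0]
      linarith
  have hSpos : 0 < S := by
    have h1 := hpart 1
    rw [Finset.sum_range_one] at h1
    exact lt_of_lt_of_le (inv_pos.2 hb0) h1
  refine ⟨β, fun k => ⟨hpos k, hle k⟩, hmono, hdbl, ?_, 2 * S, by linarith, ?_⟩
  · exact summable_of_sum_range_le (fun k => (inv_pos.2 (hpos k)).le) hT
  · intro k
    have h1 : ∑ i ∈ Finset.range (k + 1), (β k)⁻¹ ≤ ∑ i ∈ Finset.range (k + 1), (β i)⁻¹ := by
      apply Finset.sum_le_sum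
      intro i hi
      have hik : i ≤ k := Nat.lt_succ_iff.1 (Finset.mem_range.1 hi)
      exact inv_anti₀ (hpos i) (hmono hik)
    rw [Finset.sum_const, Finset.card_range, nsmul_eq_mul] at h1
    have h2 := h1.trans (hT (k + 1))
    have h3 : ((k + 1 : ℕ) : ℝ) * (β k)⁻¹ * β k ≤ 2 * S * β k :=
      mul_le_mul_of_nonneg_right h2 (hpos k).le
    rw [mul_assoc, inv_mul_cancel₀ (hpos k).ne', mul_one] at h3
    push_cast at h3
    exact h3

end Pool.Agent.H34.EX
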