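import Pool.Agent.H34.EX.E7
import Pool.Agent.H34.EX.Defs

/-!
E8: the weights. `β, C` from `regular`; `a 0 = β 0 + 1`, `a (k+1) = β (k+1) - β k + 1`, so `a k ≥ 1` and `∑_{i ≤ k} a i = β k + k + 1 ≤ (1 + C) β k`, `≥ β k`. `a k ≤ β k + 1 ≤ 2^k β 0 + 1`, so `∑ a k / 4^k` converges, sum `A > 0`; `W k = a k / 4^k / (2 A)`.
`4^k W k = a k / (2 A) ≥ 1 / (2 A)`; `MM W k = (β k + k + 1) / (2 A) ≥ β k / (2 A)`, inverses summable. Last part: `W k * (min (2^k) (2^j))^2`: for `k ≤ j` it is `a k / (2 A)`, sum `≤ (1 + C) β j / (2 A)`; for `k > j`: `4^(j-k) a k / (2 A) ≤ 4^(j-k) (2^(k-j) β j + 1) / (2 A)`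
(`β k ≤ 2^(k-j) β j`), sum over `k > j` at most `(β j + 1) / (2 A)`; `1 ≤ C β j`, `β j ≤ b j`. To avoid splitting the series: `W k * (min ..)^2 ≤ C' * β j * ((1/2)^(k - j))` for `k > j`, or bound all finite partial sums (`Real.tsum_le_of_sum_range_le`).
-/

namespace Pool.Agent.H34.EX

/-- the increments, plus one -/
private noncomputable def e8a (β : ℕ → ℝ) : ℕ → ℝ
  | 0 => β 0 + 1
  | k + 1 => β (k + 1) - β k + 1

private theorem e8a_sum (β : ℕ → ℝ) (k : ℕ) :
    ∑ i ∈ Finset.range (k + 1), e8a β i = β k + k + 1 := by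
  induction k with
  | zero => simp [e8a]
  | succ k ih =>
      rw [Finset.sum_range_succ, ih, e8a]
      push_cast
      ring

private theorem e8a_one_le {β : ℕ → ℝ} (h0 : ∀ k, 0 < β k) (hm : Monotone β) (k : ℕ) :
    1 ≤ e8a β k := by
  cases k with
  | zero => rw [e8a]; linarith [h0 0]
  | succ k => rw [e8a]; linarith [hm (Nat.le_succ k)]

private theorem e8a_le {β : ℕ → ℝ} (h0 : ∀ k, 0 < β k) (k : ℕ) : e8a β k ≤ β k + 1 := by
  cases k with
  | zero => rw [e8a]
  | succ k => rw [e8a]; linarith [h0 k]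

private theorem e8_grow {β : ℕ → ℝ} (h2 : ∀ k, β (k + 1) ≤ 2 * β k) (j m : ℕ) :
    β (j + m) ≤ 2 ^ m * β j := by
  induction m with
  | zero => simp
  | succ m ih =>
      calc β (j + (m + 1)) = β ((j + m) + 1) := rfl
        _ ≤ 2 * β (j + m) := h2 _
        _ ≤ 2 * (2 ^ m * β j) := by linarith
        _ = 2 ^ (m + 1) * β j := by ring

private theorem e8_half (n : ℕ) : ∑ i ∈ Finset.range n, ((1 : ℝ) / 2) ^ (i + 1) ≤ 1 := by
  have h : ∑ i ∈ Finset.range n, ((1 : ℝ) / 2) ^ (i + 1) = 1 - (1 / 2) ^ n := by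
    induction n with
    | zero => simp
    | succ n ih =>
        rw [Finset.sum_range_succ, ih]
        ring
  rw [h]
  have : (0 : ℝ) ≤ (1 / 2) ^ n := by positivity
  linarith

theorem exists_weights {b : ℕ → ℝ} (hb : Monotone b) (hb0 : 0 < b 0)
    (hs : Summable fun j => (b j)⁻¹) : ∃ W : ℕ → ℝ, Wt W ∧ ∃ C : ℝ, 0 < C ∧
      ∀ j : ℕ, ∑' k : ℕ, W k * (min ((2 : ℝ) ^ k) (2 ^ j)) ^ 2 ≤ C * b j := by
  obtain ⟨β, hβ, hm, h2, hsum, C, hC, hCβ⟩ := regular hb hb0 hs
  have h0 : ∀ k, 0 < β k := fun k => (hβ k).1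
  set a : ℕ → ℝ := e8a β with ha
  have ha1 : ∀ k, 1 ≤ a k := e8a_one_le h0 hm
  have ha2 : ∀ k, a k ≤ β k + 1 := e8a_le h0
  have hsa : Summable fun k => a k / 4 ^ k := by
    have hg1 : Summable fun k : ℕ => β 0 * ((1 : ℝ) / 2) ^ k :=
      (summable_geometric_of_lt_one (by norm_num) (by norm_num)).mul_left _
    have hg2 : Summable fun k : ℕ => ((1 : ℝ) / 4) ^ k :=
      summable_geometric_of_lt_one (by norm_num) (by norm_num)
    refine Summable.of_nonneg_of_le (fun k => ?_) (fun k => ?_) (hg1.add hg2)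
    · have := ha1 k
      positivity
    · have h3 : β k ≤ 2 ^ k * β 0 := by
        have := e8_grow h2 0 k
        rwa [Nat.zero_add] at this
      have h4 : a k ≤ 2 ^ k * β 0 + 1 := (ha2 k).trans (by linarith)
      calc a k / 4 ^ k ≤ (2 ^ k * β 0 + 1) / 4 ^ k := by gcongr
        _ = β 0 * ((1 : ℝ) / 2) ^ k + ((1 : ℝ) / 4) ^ k := by
            have h5 : (4 : ℝ) ^ k = 2 ^ k * 2 ^ k := by
              rw [← mul_pow]; norm_num
            have h6 : (0 : ℝ) < 2 ^ k := by positivity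
            rw [one_div, one_div, inv_pow, inv_pow, h5]
            field_simp
  set A : ℝ := ∑' k, a k / 4 ^ k with hA
  have hA0 : 0 < A := by
    refine hsa.tsum_pos (fun k => ?_) 0 ?_
    · have := ha1 k
      positivity
    · have := ha1 0
      positivity
  have h2A : 0 < 2 * A := by linarith
  set W : ℕ → ℝ := fun k => a k / 4 ^ k / (2 * A) with hW
  have h4W : ∀ k, 4 ^ k * W k = a k / (2 * A) := by
    intro k
    have h6 : (0 : ℝ) < 4 ^ k := by positivity
    rw [hW]
    field_simp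
  have hWpos : ∀ k, 0 < W k := by
    intro k
    have := ha1 k
    rw [hW]
    positivity
  have hMM : ∀ k, MM W k = (β k + k + 1) / (2 * A) := by
    intro k
    rw [MM, Finset.sum_congr rfl fun i _ => h4W i, ← Finset.sum_div, ha, e8a_sum]
  refine ⟨W, ⟨hWpos, ?_, ⟨1 / (2 * A), by positivity, fun k => ?_⟩, ?_⟩,
    (1 + C) / A, by positivity, fun j => ?_⟩
  · have h3 : HasSum (fun k => a k / 4 ^ k) A := hsa.hasSum
    have h4 := h3.div_const (2 * A)
    have h5 : A / (2 * A) = 1 / 2 := by field_simp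
    rw [h5] at h4
    exact h4
  · rw [h4W k]
    exact div_le_div_of_nonneg_right (ha1 k) h2A.le
  · refine Summable.of_nonneg_of_le (fun k => ?_) (fun k => ?_) (hsum.mul_left (2 * A))
    · rw [hMM k]
      have := h0 k
      positivity
    · rw [hMM k, inv_div, div_eq_mul_inv]
      have h3 := h0 k
      have h4 : (β k + k + 1)⁻¹ ≤ (β k)⁻¹ :=
        inv_anti₀ h3 (by have : (0 : ℝ) ≤ k := Nat.cast_nonneg k; linarith)
      exact mul_le_mul_of_nonneg_left h4 h2A.le
  · -- the last part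
    have hnn : ∀ k, 0 ≤ W k * (min ((2 : ℝ) ^ k) (2 ^ j)) ^ 2 :=
      fun k => mul_nonneg (hWpos k).le (sq_nonneg _)
    refine le_trans (Real.tsum_le_of_sum_range_le (c := (1 + C) / A * β j) hnn fun n => ?_) ?_
    · have hext : ∑ k ∈ Finset.range n, W k * (min ((2 : ℝ) ^ k) (2 ^ j)) ^ 2 ≤
          ∑ k ∈ Finset.range (j + 1 + n), W k * (min ((2 : ℝ) ^ k) (2 ^ j)) ^ 2 :=
        Finset.sum_le_sum_of_subset_of_nonneg
          (Finset.range_subset_range.2 (by omega)) fun k _ _ => hnn k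
      refine hext.trans ?_
      rw [Finset.sum_range_add]
      have hA1 : ∑ k ∈ Finset.range (j + 1), W k * (min ((2 : ℝ) ^ k) (2 ^ j)) ^ 2 =
          (β j + j + 1) / (2 * A) := by
        rw [← e8a_sum β j, Finset.sum_div]
        refine Finset.sum_congr rfl fun k hk => ?_
        have hkj : k ≤ j := by
          have := Finset.mem_range.1 hk
          omega
        have hp : (2 : ℝ) ^ k ≤ 2 ^ j := pow_le_pow_right₀ (by norm_num) hkj
        rw [min_eq_left hp, ← h4W k]
        have h5 : (4 : ℝ) ^ k = (2 ^ k) ^ 2 := by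
          rw [← pow_mul, mul_comm k 2, pow_mul]; norm_num
        rw [h5]
        ring
      have hA2 : ∑ i ∈ Finset.range n,
          W (j + 1 + i) * (min ((2 : ℝ) ^ (j + 1 + i)) (2 ^ j)) ^ 2 ≤ (β j + 1) / (2 * A) := by
        have hterm : ∀ i ∈ Finset.range n,
            W (j + 1 + i) * (min ((2 : ℝ) ^ (j + 1 + i)) (2 ^ j)) ^ 2 ≤
              (β j + 1) / (2 * A) * ((1 : ℝ) / 2) ^ (i + 1) := by
          intro i _
          have hp : (2 : ℝ) ^ j ≤ 2 ^ (j + 1 + i) :=
            pow_le_pow_right₀ (by norm_num) (by omega)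
          rw [min_eq_right hp]
          have e1 : j + 1 + i = j + (i + 1) := by omega
          rw [e1]
          have h3 : a (j + (i + 1)) ≤ 2 ^ (i + 1) * (β j + 1) := by
            have h4 := ha2 (j + (i + 1))
            have h5 := e8_grow h2 j (i + 1)
            have h6 : (1 : ℝ) ≤ 2 ^ (i + 1) := one_le_pow₀ (by norm_num)
            nlinarith
          have h7 : W (j + (i + 1)) * (2 ^ j) ^ 2 =
              a (j + (i + 1)) / (2 * A) / (4 : ℝ) ^ (i + 1) := by
            rw [hW]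
            have h8 : (4 : ℝ) ^ (j + (i + 1)) = (2 ^ j) ^ 2 * 4 ^ (i + 1) := by
              rw [pow_add, ← pow_mul, mul_comm j 2, pow_mul]; norm_num
            have h9 : (0 : ℝ) < (2 ^ j) ^ 2 := by positivity
            have h10 : (0 : ℝ) < 4 ^ (i + 1) := by positivity
            simp only
            rw [h8]
            field_simp
          rw [h7]
          have h11 : (4 : ℝ) ^ (i + 1) = 2 ^ (i + 1) * 2 ^ (i + 1) := by
            rw [← mul_pow]; norm_num
          have h12 : (0 : ℝ) < 2 ^ (i + 1) := by positivity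
          calc a (j + (i + 1)) / (2 * A) / (4 : ℝ) ^ (i + 1)
              ≤ (2 ^ (i + 1) * (β j + 1)) / (2 * A) / (4 : ℝ) ^ (i + 1) := by gcongr
            _ = (β j + 1) / (2 * A) * ((1 : ℝ) / 2) ^ (i + 1) := by
                rw [one_div, inv_pow, h11]
                field_simp
        refine (Finset.sum_le_sum hterm).trans ?_
        rw [← Finset.mul_sum]
        have h3 : 0 ≤ (β j + 1) / (2 * A) := by
          have := h0 j
          positivity
        calc (β j + 1) / (2 * A) * ∑ i ∈ Finset.range n, ((1 : ℝ) / 2) ^ (i + 1)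
            ≤ (β j + 1) / (2 * A) * 1 := mul_le_mul_of_nonneg_left (e8_half n) h3
          _ = (β j + 1) / (2 * A) := mul_one _
      rw [hA1]
      have h3 : (1 : ℝ) ≤ C * β j := by
        have := hCβ j
        have h4 : (0 : ℝ) ≤ j := Nat.cast_nonneg j
        linarith
      calc (β j + j + 1) / (2 * A) + ∑ i ∈ Finset.range n,
            W (j + 1 + i) * (min ((2 : ℝ) ^ (j + 1 + i)) (2 ^ j)) ^ 2
          ≤ (β j + j + 1) / (2 * A) + (β j + 1) / (2 * A) := by gcongr
        _ = ((β j + j + 1) + (β j + 1)) / (2 * A) := (add_div _ _ _).symm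
        _ ≤ (2 * (1 + C) * β j) / (2 * A) := by
            refine div_le_div_of_nonneg_right ?_ h2A.le
            linarith [hCβ j]
        _ = (1 + C) / A * β j := by field_simp
    · exact mul_le_mul_of_nonneg_left (hβ j).2 (by positivity)

end Pool.Agent.H34.EX
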