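import Pool.Agent.H34.EX.E6
import Pool.Agent.H34.EX.E8
import Pool.Agent.H34.PW.MT

/-!
Fin: the exact integral test.
-/

namespace Pool.Agent.H34.EX

open Pool.Agent.H34.LS Pool.Agent.H34.FL Pool.Agent.H34.DA Pool.Agent.H34.MI Filter Topology

open Pool.Agent.H34.CM (SecondMoment image_first image_second image_mean first_of_second gg_onto
  gg_small centered_sm below_two mean_symm)

open Pool.Agent.H34.PW (trunc SlowMoment gg_slow image_symm image_slow slow_of_second trunc_pos)

/-- the second moments cut off at `2 ^ j` are `O (b j)`, for some finite generating set. -/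
def TruncO {G : Type} [Group G] (mu : G → ℝ) (b : ℕ → ℝ) : Prop :=
  ∃ S : Set G, S.Finite ∧ Subgroup.closure S = ⊤ ∧ ∃ C : ℝ, ∀ j, trunc S mu j ≤ C * b j

/-- a symmetric measure with a nontrivial boundary for every convergent series `∑ 1 / b j`. -/
theorem below_weights {G : Type} [Group G] (theta : G →* GG) (hsurj : Function.Surjective theta)
    (hlift : ∀ mu' : GG → ℝ, IsFSProb mu' → Generating mu' → Symm mu' →
      ∃ mu : G → ℝ, IsFSProb mu ∧ Generating mu ∧ Symm mu ∧ push theta mu = mu')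
    {W : ℕ → ℝ} (hW : Wt W) {b : ℕ → ℝ} (hb0 : 0 < b 0) (hbm : Monotone b) {C0 : ℝ}
    (hWb : ∀ j : ℕ, ∑' k : ℕ, W k * (min ((2 : ℝ) ^ k) (2 ^ j)) ^ 2 ≤ C0 * b j) :
    ∃ mu : G → ℝ, IsProb mu ∧ Generating mu ∧ Symm mu ∧
      (∀ S : Set G, S.Finite → Subgroup.closure S = ⊤ → ∃ C : ℝ, ∀ j, trunc S mu j ≤ C * b j) ∧
      ¬ Liouville mu := by
  obtain ⟨nu', hnu, hgen, hsym, hpush⟩ := hlift nu nu_fs nu_gen nu_symm
  obtain ⟨t, ht⟩ := hsurj gT
  set i : ℕ → G := fun k => t ^ (2 ^ k) with hi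
  set j : ℕ → G := fun k => (t ^ (2 ^ k))⁻¹ with hj
  have hti : ∀ k, theta (i k) = gT ^ (2 ^ k) := fun k => by
    rw [hi]
    dsimp only
    rw [map_pow, ht]
  have hii : Function.Injective i := by
    intro k l hkl
    have h1 : Multiplicative.toAdd (hgt (theta (i k))) = Multiplicative.toAdd (hgt (theta (i l))) := by
      rw [hkl]
    rw [hti, hti, map_pow hgt, map_pow hgt, toAdd_pow, toAdd_pow, hgt_T] at h1
    simp only [nsmul_eq_mul, mul_one, Nat.cast_inj] at h1
    exact Nat.pow_right_injective le_rfl h1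
  have hji : Function.Injective j := fun k l hkl => hii (inv_injective hkl)
  set mu : G → ℝ := fun g => 1 / 2 * nu' g + 1 / 2 * (Function.extend i W 0 g +
    Function.extend j W 0 g) with hmu
  have hWn : ∀ k, 0 ≤ W k := fun k => (hW.pos k).le
  have hint : ∀ (φ : G → ℝ) (a b c : ℝ), HasSum (fun g => nu' g * φ g) a →
      HasSum (fun k => W k * φ (i k)) b → HasSum (fun k => W k * φ (j k)) c →
      HasSum (fun g => mu g * φ g) (1 / 2 * a + 1 / 2 * (b + c)) := by
    intro φ a b c ha hb hc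
    have h1 := (ha.mul_left (1 / 2)).add
      ((((ext_hasSum hii W φ).2 hb).add ((ext_hasSum hji W φ).2 hc)).mul_left (1 / 2))
    refine h1.congr_fun fun g => ?_
    rw [hmu]
    ring
  have hnusum : HasSum (fun g => nu' g * 1) 1 := by
    have h1 : HasSum (fun y => push theta nu' y * 1) 1 := by
      rw [hpush]
      have h2 := nu_hasSum fun _ => 1
      norm_num at h2 ⊢
      exact h2
    exact push_hasSum theta hnu.finite (fun _ => 1) h1
  refine ⟨mu, ⟨fun g => ?_, ?_⟩, ?_, ?_, ?_, ?_⟩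
  · have h1 := hnu.nonneg g
    have h2 := ext_nonneg hii hWn g
    have h3 := ext_nonneg hji hWn g
    rw [hmu]
    dsimp only
    linarith
  · have h1 := hint (fun _ => 1) 1 (1 / 2) (1 / 2) hnusum (by simpa using hW.total)
      (by simpa using hW.total)
    norm_num at h1
    exact h1
  · unfold Generating at hgen ⊢
    refine top_le_iff.1 ?_
    rw [← hgen]
    refine Submonoid.closure_mono fun g hg => ?_
    rw [Function.mem_support] at hg ⊢
    have h1 : 0 < nu' g := lt_of_le_of_ne (hnu.nonneg g) (Ne.symm hg)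
    have h2 := ext_nonneg hii hWn g
    have h3 := ext_nonneg hji hWn g
    rw [hmu]
    dsimp only
    have : 0 < 1 / 2 * nu' g + 1 / 2 * (Function.extend i W 0 g + Function.extend j W 0 g) := by
      linarith
    exact this.ne'
  · intro g
    rw [hmu]
    dsimp only
    rw [hsym g, ext_inv hii hji (fun _ => rfl) W g,
      ext_inv hji hii (fun k => (inv_inv _).symm) W g]
    ring
  · intro S hSf hS
    set D : ℕ := wordLength S t + 1 with hD
    have hD1 : (1 : ℝ) ≤ (D : ℝ) := by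
      rw [hD]
      push_cast
      linarith [(Nat.cast_nonneg (wordLength S t) : (0 : ℝ) ≤ (wordLength S t : ℝ))]
    have hup : ∀ k, (wordLength S (i k) : ℝ) ≤ 2 ^ k * D := by
      intro k
      have h1 : wordLength S (i k) ≤ 2 ^ k * wordLength S t := wl_pow hS t (2 ^ k)
      have h2 : wordLength S (i k) ≤ 2 ^ k * D := h1.trans (Nat.mul_le_mul_left _ (Nat.le_succ _))
      exact_mod_cast h2
    have hupj : ∀ k, (wordLength S (j k) : ℝ) ≤ 2 ^ k * D := by
      intro k
      have h1 : wordLength S (j k) = wordLength S (i k) := wl_inv hS (i k)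
      rw [h1]
      exact hup k
    set A0 : ℝ := ∑' g, nu' g * (wordLength S g : ℝ) ^ 2 with hA0
    have hA0n : 0 ≤ A0 := tsum_nonneg fun g => mul_nonneg (hnu.nonneg g) (by positivity)
    have hsW : ∀ n : ℕ, Summable fun k => W k * (min ((2 : ℝ) ^ k) (2 ^ n)) ^ 2 := by
      intro n
      refine Summable.of_nonneg_of_le (fun k => mul_nonneg (hWn k) (by positivity)) (fun k => ?_)
        (hW.total.summable.mul_right (((2 : ℝ) ^ n) ^ 2))
      exact mul_le_mul_of_nonneg_left (pow_le_pow_left₀ (by positivity) (min_le_right _ _) 2) (hWn k)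
    have hterm : ∀ (l : ℕ → G), (∀ k, (wordLength S (l k) : ℝ) ≤ 2 ^ k * D) → ∀ n k : ℕ,
        W k * (min (wordLength S (l k) : ℝ) (2 ^ n)) ^ 2 ≤
          (D : ℝ) ^ 2 * (W k * (min ((2 : ℝ) ^ k) (2 ^ n)) ^ 2) := by
      intro l hl n k
      have h1 : min (wordLength S (l k) : ℝ) (2 ^ n) ≤ D * min ((2 : ℝ) ^ k) (2 ^ n) := by
        rcases le_total ((2 : ℝ) ^ k) (2 ^ n) with hk | hk
        · rw [min_eq_left hk]
          exact (min_le_left _ _).trans ((hl k).trans (le_of_eq (mul_comm _ _)))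
        · rw [min_eq_right hk]
          exact (min_le_right _ _).trans (le_mul_of_one_le_left (by positivity) hD1)
      have h2 : (min (wordLength S (l k) : ℝ) (2 ^ n)) ^ 2 ≤
          (D * min ((2 : ℝ) ^ k) (2 ^ n)) ^ 2 := pow_le_pow_left₀ (by positivity) h1 2
      calc W k * (min (wordLength S (l k) : ℝ) (2 ^ n)) ^ 2
          ≤ W k * (D * min ((2 : ℝ) ^ k) (2 ^ n)) ^ 2 := mul_le_mul_of_nonneg_left h2 (hWn k)
        _ = (D : ℝ) ^ 2 * (W k * (min ((2 : ℝ) ^ k) (2 ^ n)) ^ 2) := by ring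
    have hsl : ∀ (l : ℕ → G), (∀ k, (wordLength S (l k) : ℝ) ≤ 2 ^ k * D) → ∀ n : ℕ,
        Summable (fun k => W k * (min (wordLength S (l k) : ℝ) (2 ^ n)) ^ 2) ∧
        ∑' k, W k * (min (wordLength S (l k) : ℝ) (2 ^ n)) ^ 2 ≤ (D : ℝ) ^ 2 * (C0 * b n) := by
      intro l hl n
      have h1 : Summable fun k => W k * (min (wordLength S (l k) : ℝ) (2 ^ n)) ^ 2 :=
        Summable.of_nonneg_of_le (fun k => mul_nonneg (hWn k) (by positivity))
          (fun k => hterm l hl n k) ((hsW n).mul_left _)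
      refine ⟨h1, (h1.tsum_le_tsum (fun k => hterm l hl n k) ((hsW n).mul_left _)).trans ?_⟩
      rw [tsum_mul_left]
      exact mul_le_mul_of_nonneg_left (hWb n) (by positivity)
    have hsn : ∀ n : ℕ, Summable (fun g => nu' g * (min (wordLength S g : ℝ) (2 ^ n)) ^ 2) ∧
        ∑' g, nu' g * (min (wordLength S g : ℝ) (2 ^ n)) ^ 2 ≤ A0 := by
      intro n
      have hfs : ∀ φ : G → ℝ, Summable fun g => nu' g * φ g := by
        intro φ
        refine summable_of_hasFiniteSupport (hnu.finite.subset fun g hg => ?_)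
        rw [Function.mem_support] at hg ⊢
        exact left_ne_zero_of_mul hg
      refine ⟨hfs _, (hfs _).tsum_le_tsum (fun g => ?_) (hfs _)⟩
      exact mul_le_mul_of_nonneg_left (pow_le_pow_left₀ (by positivity) (min_le_left _ _) 2)
        (hnu.nonneg g)
    refine ⟨A0 / b 0 + (D : ℝ) ^ 2 * C0, fun n => ?_⟩
    obtain ⟨s1, t1⟩ := hsn n
    obtain ⟨s2, t2⟩ := hsl i hup n
    obtain ⟨s3, t3⟩ := hsl j hupj n
    have h1 := (hint (fun g => (min (wordLength S g : ℝ) (2 ^ n)) ^ 2) _ _ _ s1.hasSum s2.hasSum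
      s3.hasSum).tsum_eq
    have h2 : trunc S mu n ≤ A0 + (D : ℝ) ^ 2 * (C0 * b n) := by
      unfold PW.trunc
      rw [h1]
      linarith
    refine h2.trans ?_
    have h3 : A0 ≤ A0 / b 0 * b n := by
      rw [div_mul_eq_mul_div, le_div_iff₀ hb0]
      exact mul_le_mul_of_nonneg_left (hbm (Nat.zero_le n)) hA0n
    nlinarith
  · intro hL
    obtain ⟨w, hw1, hwne, hw⟩ := exists_ww2 hW
    have hne : ∃ x y : G, (fun g : G => w ((theta g : Equiv.Perm XX)⁻¹ x0)) x ≠
        (fun g : G => w ((theta g : Equiv.Perm XX)⁻¹ x0)) y := by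
      obtain ⟨b, hb⟩ := hsurj gB
      refine ⟨1, b, ?_⟩
      dsimp only
      rw [map_one, hb]
      have h1 : ((gB : Equiv.Perm XX))⁻¹ x0 = bX x0 := rfl
      rw [h1]
      exact hwne
    obtain ⟨x, y, hxy⟩ := hne
    refine hxy (hL (fun g => w ((theta g : Equiv.Perm XX)⁻¹ x0)) ⟨⟨1, fun g => hw1 _⟩,
      fun g => ?_⟩ x y)
    set q : XX := (theta g : Equiv.Perm XX)⁻¹ x0 with hq
    set φ : GG → ℝ := fun y => w ((y : Equiv.Perm XX)⁻¹ q) with hφ
    have hmul : ∀ h, w ((theta (g * h) : Equiv.Perm XX)⁻¹ x0) = φ (theta h) := by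
      intro h
      rw [hφ]
      dsimp only
      rw [map_mul, Subgroup.coe_mul, mul_inv_rev, Equiv.Perm.mul_apply, ← hq]
    have hTk : ∀ k : ℕ, ((gT ^ (2 ^ k) : GG) : Equiv.Perm XX) = tX (2 ^ k) := by
      intro k
      have h1 := tX_zpow ((2 ^ k : ℕ) : ℤ)
      rw [zpow_natCast] at h1
      rw [Subgroup.coe_pow]
      push_cast at h1
      exact h1
    have hφi : ∀ k, φ (theta (i k)) = w ((tX (2 ^ k)).symm q) := by
      intro k
      rw [hti, hφ]
      dsimp only
      rw [hTk]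
      rfl
    have hφj : ∀ k, φ (theta (j k)) = w (tX (2 ^ k) q) := by
      intro k
      have h1 : theta (j k) = (gT ^ (2 ^ k))⁻¹ := by
        rw [← hti, ← map_inv]
      rw [h1, hφ]
      dsimp only
      rw [Subgroup.coe_inv, inv_inv, hTk]
    have hbdd : ∀ v : ℕ → ℝ, (∀ k, |v k| ≤ 1) → Summable fun k => W k * v k := by
      intro v hv
      refine Summable.of_norm_bounded hW.total.summable fun k => ?_
      rw [norm_mul, Real.norm_eq_abs, Real.norm_eq_abs, abs_of_nonneg (hWn k)]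
      have := mul_le_mul_of_nonneg_left (hv k) (hWn k)
      rwa [mul_one] at this
    have hsi := (hbdd (fun k => w ((tX (2 ^ k)).symm q)) fun k => hw1 _).hasSum
    have hsj := (hbdd (fun k => w (tX (2 ^ k) q)) fun k => hw1 _).hasSum
    have hA := hint (fun h => φ (theta h)) _ _ _
      (push_hasSum theta hnu.finite φ (by rw [hpush]; exact nu_hasSum φ))
      (by simp only [hφi]; exact hsi) (by simp only [hφj]; exact hsj)
    have hB := hw q
    have hC : HasSum (fun k => W k / 2 * (w (tX (2 ^ k) q) + w ((tX (2 ^ k)).symm q)))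
        (1 / 2 * ((∑' k, W k * w ((tX (2 ^ k)).symm q)) + ∑' k, W k * w (tX (2 ^ k) q))) := by
      refine ((hsi.add hsj).mul_left (1 / 2)).congr_fun fun k => ?_
      ring
    have hD := hB.unique hC
    have e1 : φ gA = w (aX q) := rfl
    have e2 : φ gB = w (bX q) := rfl
    have e3 : φ gT = w ((tX 1).symm q) := rfl
    have e4 : φ gT⁻¹ = w (tX 1 q) := rfl
    rw [← hD, e1, e2, e3, e4] at hA
    have hE : w q = 1 / 2 * (1 / 4 * (w (aX q) + w (bX q) + w ((tX 1).symm q) + w (tX 1 q))) +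
        (w q - 1 / 8 * (w (aX q) + w (bX q) + w (tX 1 q) + w ((tX 1).symm q))) := by ring
    simp only [hmul]
    rw [hE]
    exact hA

theorem exact_test :
    ∃ (G : Type) (_ : Group G) (f : G →* Multiplicative ℤ), Group.FG G ∧ LocFinByZ G ∧
      LacunaryHyperbolic G ∧ Function.Surjective f ∧
      (∃ mu : G → ℝ, IsFSProb mu ∧ Generating mu ∧ Symm mu ∧ mean f mu = 0) ∧
      (∃ mu : G → ℝ, IsFSProb mu ∧ Generating mu ∧ mean f mu ≠ 0) ∧
      (∀ mu : G → ℝ, IsProb mu → Generating mu → SecondMoment mu →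
        (Liouville mu ↔ mean f mu = 0)) ∧
      (∀ mu : G → ℝ, IsProb mu → Generating mu → Symm mu → SlowMoment mu → Liouville mu) ∧
      (∀ mu : G → ℝ, IsProb mu → Generating mu → SecondMoment mu → SlowMoment mu) ∧
      (∀ b : ℕ → ℝ, Monotone b → 0 < b 0 →
        ((∀ mu : G → ℝ, IsProb mu → Generating mu → Symm mu → TruncO mu b → Liouville mu) ↔
          ¬ Summable fun j => (b j)⁻¹)) ∧
      (∀ mu : G → ℝ, IsProb mu → Generating mu → FirstMoment mu → mean f mu ≠ 0 →
        ¬ Liouville mu) ∧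
      ∃ mu : G → ℝ, IsProb mu ∧ Generating mu ∧ Symm mu ∧ mean f mu = 0 ∧
        (∀ S : Set G, S.Finite → Subgroup.closure S = ⊤ → ∀ p : ℝ, 0 ≤ p → p < 2 →
          Summable fun g => mu g * (wordLength S g : ℝ) ^ p) ∧
        (∀ S : Set G, S.Finite → Subgroup.closure S = ⊤ →
          Summable fun g => mu g * ((wordLength S g : ℝ) ^ 2 /
            Real.log (2 + (wordLength S g : ℝ)) ^ 6)) ∧ ¬ Liouville mu := by
  obtain ⟨G, iG, theta, hlac, _, hloc, hsurj, _, hmu, hlift⟩ :=
    lift_limit GG (limit_of_locFin gg_fg gg_locFinByZ)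
  have hfg : Group.FG G := by
    obtain ⟨S, hS, hS2, _⟩ := hlac
    exact ⟨⟨hS.toFinset, by simpa using hS2⟩⟩
  have hf : Function.Surjective (hgt.comp theta) := by
    rw [MonoidHom.coe_comp]
    exact hgt_surj.comp hsurj
  haveI : Nontrivial G := by
    obtain ⟨a, ha⟩ := hsurj gT
    refine ⟨a, 1, fun h => ?_⟩
    rw [h, map_one] at ha
    have h1 := hgt_T
    rw [← ha, map_one] at h1
    exact absurd h1 (by decide)
  have hlift' : ∀ mu' : GG → ℝ, IsFSProb mu' → Generating mu' → Symm mu' →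
      ∃ mu : G → ℝ, IsFSProb mu ∧ Generating mu ∧ Symm mu ∧ push theta mu = mu' := by
    intro mu' k1 k2 k3
    obtain ⟨mu, l1, l2, l3, l4⟩ := hlift mu' k1 k2 k3
    exact ⟨mu, l1, l2, l3, by rw [← image_push _ l1, l4]⟩
  have hdrift : ∀ mu : G → ℝ, IsProb mu → Generating mu → FirstMoment mu →
      mean (hgt.comp theta) mu ≠ 0 → ¬ Liouville mu := by
    intro mu h hg hm hd
    rw [(hmu mu h hg).2]
    refine drift_first hgt gg_onto.surj gg_onto.locfin gg_onto.infinite (image_prob theta h)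
      (image_first theta hsurj h hm) ?_
    rw [image_mean theta hgt h hm]
    exact hd
  have hcent : ∀ mu : G → ℝ, IsProb mu → Generating mu → SecondMoment mu →
      mean (hgt.comp theta) mu = 0 → Liouville mu := by
    intro mu h hg hm h0
    rw [(hmu mu h hg).2]
    refine centered_sm hgt gg_small (image_prob theta h) (image_gen theta hsurj h hg)
      (image_second theta hsurj h hm) ?_
    rw [image_mean theta hgt h (first_of_second h hm)]
    exact h0
  have hslow : ∀ mu : G → ℝ, IsProb mu → Generating mu → Symm mu → SlowMoment mu →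
      Liouville mu := by
    intro mu h hg hs hm
    rw [(hmu mu h hg).2]
    exact gg_slow (image_prob theta h) (image_gen theta hsurj h hg) (image_symm theta hs)
      (image_slow theta hsurj h hg hm)
  refine ⟨G, iG, hgt.comp theta, hfg, hloc gg_locFinByZ, hlac, hf, ?_, ?_, ?_, hslow, ?_, ?_,
    hdrift, ?_⟩
  · obtain ⟨mu, h1, h2, h3⟩ := exists_symm hfg
    exact ⟨mu, h1, h2, h3, by rw [mean_eq _ h1, Pool.Agent.H34.DC.drift_symm _ h3]⟩
  · obtain ⟨mu, h1, h2, h3⟩ := Pool.Agent.H34.DC.exists_drift hfg (hgt.comp theta) hf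
    exact ⟨mu, h1, h2, by rw [mean_eq _ h1]; exact h3⟩
  · intro mu h hg hm
    constructor
    · intro hL
      by_contra hd
      exact hdrift mu h hg (first_of_second h hm) hd hL
    · exact hcent mu h hg hm
  · intro mu h hg hm
    exact slow_of_second h hm fun S hS j => trunc_pos h hg hS j
  · intro b hb hb0
    constructor
    · intro hall hsum
      obtain ⟨W, hW, C0, _, hWb⟩ := exists_weights hb hb0 hsum
      obtain ⟨mu, h1, h2, h3, h4, h5⟩ := below_weights theta hsurj hlift' hW hb0 hb hWb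
      obtain ⟨S, hS, hS2, _⟩ := hlac
      obtain ⟨C, hC⟩ := h4 S hS hS2
      exact h5 (hall mu h1 h2 h3 ⟨S, hS, hS2, C, hC⟩)
    · intro hdiv mu h hg hs hO
      obtain ⟨S, hSf, hS, C, hC⟩ := hO
      refine hslow mu h hg hs ⟨S, hSf, hS, fun hsum => hdiv ?_⟩
      have hp := fun j => trunc_pos h hg hS j
      have hbp : ∀ j, 0 < b j := fun j => hb0.trans_le (hb (Nat.zero_le j))
      have hCp : 0 < C := by
        by_contra hcon
        have h1 := (hp 0).trans_le (hC 0)
        have h2 : C * b 0 ≤ 0 := mul_nonpos_of_nonpos_of_nonneg (not_lt.1 hcon) hb0.le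
        linarith
      refine Summable.of_nonneg_of_le (fun j => (inv_pos.2 (hbp j)).le) (fun j => ?_)
        (hsum.mul_left C)
      rw [← div_eq_mul_inv, inv_eq_one_div, div_le_div_iff₀ (hbp j) (hp j), one_mul]
      exact hC j
  · obtain ⟨mu, h1, h2, h3, h4, h5, h6⟩ := below_two theta hsurj hlift'
    exact ⟨mu, h1, h2, h3, mean_symm _ h3, h4, h5, h6⟩

end Pool.Agent.H34.EX
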